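import Mathlib
import Pool.Agent.Y518.CC.FStm

/-! Project Y518-CC, job SUP (helper914): supports of measurable sets and functions. -/

set_option autoImplicit false

namespace Pool.Agent.Y914.CC

open MeasureTheory Pool.Agent.Y518.CC

variable {k : ℕ}

/-- the set depends on countably many labels, measurably -/
def Fac (B : Set (Om k)) : Prop :=
  ∃ (l : ℕ → Lab k) (B' : Set (ℕ → Al k)), MeasurableSet B' ∧ B = {u | (fun n => u (l n)) ∈ B'}

theorem meas_shift (i : ℕ) : Measurable (fun (w : ℕ → Al k) (n : ℕ) => w (Nat.pair i n)) :=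
  measurable_pi_lambda _ fun _ => measurable_pi_apply _

/-- the sigma-algebra of these sets -/
@[reducible] def mm (k : ℕ) : MeasurableSpace (Om k) where
  MeasurableSet' B := Fac B
  measurableSet_empty := ⟨fun _ => .base (0, 0) true, ∅, MeasurableSet.empty, by
    ext u; simp⟩
  measurableSet_compl := by
    rintro B ⟨l, B', hB', rfl⟩
    exact ⟨l, B'ᶜ, hB'.compl, rfl⟩
  measurableSet_iUnion := by
    intro f hf
    choose l B' hB' hf using hf
    refine ⟨fun n => l n.unpair.1 n.unpair.2, ⋃ i, {w | (fun n => w (Nat.pair i n)) ∈ B' i}, ?_, ?_⟩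
    · exact MeasurableSet.iUnion fun i => meas_shift i (hB' i)
    · ext u
      rw [Set.mem_iUnion]
      change (∃ i, u ∈ f i) ↔ (fun n => u (l n.unpair.1 n.unpair.2)) ∈
        ⋃ i, {w : ℕ → Al k | (fun n => w (Nat.pair i n)) ∈ B' i}
      rw [Set.mem_iUnion]
      constructor
      · rintro ⟨i, hi⟩
        rw [hf i] at hi
        refine ⟨i, ?_⟩
        change (fun n => u (l (Nat.pair i n).unpair.1 (Nat.pair i n).unpair.2)) ∈ B' i
        simp only [Nat.unpair_pair]
        exact hi
      · intro hu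
        obtain ⟨i, hi⟩ := hu
        refine ⟨i, ?_⟩
        change (fun n => u (l (Nat.pair i n).unpair.1 (Nat.pair i n).unpair.2)) ∈ B' i at hi
        simp only [Nat.unpair_pair] at hi
        rw [hf i]
        exact hi

theorem pi_le : (MeasurableSpace.pi : MeasurableSpace (Om k)) ≤ mm k := by
  refine iSup_le fun a => ?_
  rintro B ⟨s, hs, rfl⟩
  refine ⟨fun _ => a, {w | w 0 ∈ s}, measurable_pi_apply 0 hs, rfl⟩

theorem fac (B : Set (Om k)) (hB : MeasurableSet B) : Fac B := pi_le B hB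

theorem sFac : S_FAC := by
  classical
  intro k f
  have hset : ∀ n m : ℕ, MeasurableSet {u : Om k | f.1 u n = m} := fun n m =>
    ((measurable_pi_apply n).comp f.2) (measurableSet_singleton m)
  have hfac := fun n m => fac _ (hset n m)
  choose l B' hB' hf using hfac
  obtain ⟨L, hL⟩ : ∃ L : ℕ → Lab k, L = fun i =>
      l i.unpair.1.unpair.1 i.unpair.1.unpair.2 i.unpair.2 := ⟨_, rfl⟩
  have hLp : ∀ n m i, L (Nat.pair (Nat.pair n m) i) = l n m i := by
    intro n m i
    rw [hL]
    simp only [Nat.unpair_pair]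
  obtain ⟨C, hC⟩ : ∃ C : ℕ → ℕ → Set (ℕ → Al k), C = fun n m =>
      {w | (fun i => w (Nat.pair (Nat.pair n m) i)) ∈ B' n m} := ⟨_, rfl⟩
  have hCm : ∀ n m, MeasurableSet (C n m) := by
    intro n m
    rw [hC]
    exact meas_shift _ (hB' n m)
  have hCe : ∀ (n m : ℕ) (u : Om k), (fun i => u (L i)) ∈ C n m ↔ f.1 u n = m := by
    intro n m u
    have h1 : (u ∈ {u : Om k | f.1 u n = m}) ↔ u ∈ {u | (fun i => u (l n m i)) ∈ B' n m} := by
      rw [← hf n m]
    rw [hC]
    change (fun i => u (L (Nat.pair (Nat.pair n m) i))) ∈ B' n m ↔ _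
    simp only [hLp]
    exact h1.symm
  have hp : ∀ (n : ℕ) (w : ℕ → Al k), ∃ m, w ∈ C n m ∨ ∀ m', w ∉ C n m' := by
    intro n w
    by_cases h : ∃ m, w ∈ C n m
    · obtain ⟨m, hm⟩ := h
      exact ⟨m, Or.inl hm⟩
    · exact ⟨0, Or.inr fun m' hm' => h ⟨m', hm'⟩⟩
  have hF : Measurable (fun (w : ℕ → Al k) (n : ℕ) => Nat.find (hp n w)) := by
    refine measurable_pi_lambda _ fun n => ?_
    refine measurable_find (hp n) fun m => ?_
    have e : {w : ℕ → Al k | w ∈ C n m ∨ ∀ m', w ∉ C n m'} = C n m ∪ ⋂ m', (C n m')ᶜ := by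
      ext w
      simp
    rw [e]
    exact (hCm n m).union (MeasurableSet.iInter fun m' => (hCm n m').compl)
  refine ⟨(L, ⟨fun w n => Nat.find (hp n w), hF⟩), ?_⟩
  refine Subtype.ext (funext fun u => funext fun n => ?_)
  change Nat.find (hp n (fun i => u (L i))) = f.1 u n
  rw [Nat.find_eq_iff]
  constructor
  · exact Or.inl ((hCe n _ u).2 rfl)
  · intro m hm hor
    rcases hor with h | h
    · exact hm.ne' ((hCe n m u).1 h)
    · exact h _ ((hCe n _ u).2 rfl)

/-- the support of a label -/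
def spt : Lab k → Set ℝ
  | .base j _ => {j.1}
  | .col l _ => ⋃ n, spt (l n)

theorem spt_countable (a : Lab k) : (spt a).Countable := by
  induction a with
  | base j e => exact Set.countable_singleton _
  | col l F ih => exact Set.countable_iUnion ih

theorem mv_fix (g : Gp) (a : Lab k) (h : ∀ j, g.Has j → j.1 ∉ spt a) : mv g a = a := by
  induction a with
  | base j e =>
    have h1 : ¬ g.Has j := fun hj => h j hj rfl
    simp [mv, h1]
  | col l F ih =>
    have h1 : ∀ n, mv g (l n) = l n := fun n => ih n fun j hj hjs => h j hj (Set.mem_iUnion.2 ⟨n, hjs⟩)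
    simp [mv, h1]

theorem sSup : S_SUP := by
  intro k B hB
  obtain ⟨l, B', hB', rfl⟩ := fac B hB
  refine ⟨⋃ n, spt (l n), Set.countable_iUnion fun n => spt_countable _, fun g hg => ?_⟩
  have h1 : ∀ n, mv g (l n) = l n := fun n =>
    mv_fix g (l n) fun j hj hjs => hg j hj (Set.mem_iUnion.2 ⟨n, hjs⟩)
  ext u
  change (fun n => u (mv g (l n))) ∈ B' ↔ (fun n => u (l n)) ∈ B'
  simp only [h1]

theorem sSuf : S_SUF := by
  intro k f
  obtain ⟨⟨l, F⟩, rfl⟩ := sFac k f
  refine ⟨⋃ n, spt (l n), Set.countable_iUnion fun n => spt_countable _, fun g hg => ?_⟩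
  have h1 : ∀ n, mv g (l n) = l n := fun n =>
    mv_fix g (l n) fun j hj hjs => hg j hj (Set.mem_iUnion.2 ⟨n, hjs⟩)
  refine Subtype.ext (funext fun u => ?_)
  change F.1 (fun n => u (mv g (l n))) = F.1 (fun n => u (l n))
  simp only [h1]

end Pool.Agent.Y914.CC
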